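import Pool.Agent.Helper70.DK.Defs

set_option autoImplicit false

namespace Pool.Agent.Helper70.DK

open Finset

theorem pig_markov (s : Finset ℕ) (f : ℕ → ℝ) (hf : ∀ j ∈ s, 0 ≤ f j) (a S : ℝ)
    (hS : ∑ j ∈ s, f j ≤ S) : ((s.filter (fun j => a < f j)).card : ℝ) * a ≤ S := by
  calc ((s.filter (fun j => a < f j)).card : ℝ) * a = ∑ j ∈ s.filter (fun j => a < f j), a := by
        rw [sum_const, nsmul_eq_mul]
    _ ≤ ∑ j ∈ s.filter (fun j => a < f j), f j := by
        apply sum_le_sum
        intro j hj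
        exact (mem_filter.1 hj).2.le
    _ ≤ ∑ j ∈ s, f j := by
        apply sum_le_sum_of_subset_of_nonneg (filter_subset _ _)
        intro j hj _
        exact hf j hj
    _ ≤ S := hS

theorem pig_many (s : Finset ℕ) (f : ℕ → ℝ) (U a : ℝ) (hU : ∀ j ∈ s, f j ≤ U) (ha : 0 ≤ a) :
    ∑ j ∈ s, f j ≤ ((s.filter (fun j => a ≤ f j)).card : ℝ) * U + (s.card : ℝ) * a := by
  rw [← sum_filter_add_sum_filter_not s (fun j => a ≤ f j)]
  apply add_le_add
  · rw [← nsmul_eq_mul, ← sum_const]
    apply sum_le_sum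
    intro j hj
    exact hU j (mem_filter.1 hj).1
  · calc ∑ j ∈ s.filter (fun j => ¬ a ≤ f j), f j ≤ ∑ j ∈ s.filter (fun j => ¬ a ≤ f j), a := by
          apply sum_le_sum
          intro j hj
          exact (not_le.1 (mem_filter.1 hj).2).le
      _ = ((s.filter (fun j => ¬ a ≤ f j)).card : ℝ) * a := by rw [sum_const, nsmul_eq_mul]
      _ ≤ (s.card : ℝ) * a := by
          apply mul_le_mul_of_nonneg_right _ ha
          exact_mod_cast card_filter_le _ _

theorem st_PIG : ST_PIG := by
  classical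
  intro M K ε1 hM hK hε1
  have hM' : (2 : ℝ) ≤ M := by exact_mod_cast hM
  have hK' : (1 : ℝ) ≤ K := by exact_mod_cast hK
  have hMp : (0 : ℝ) < M := by linarith
  have hKp : (0 : ℝ) < K := by linarith
  have hM1 : (0 : ℝ) < (M : ℝ) - 1 := by linarith
  obtain ⟨g, hg⟩ : ∃ g : ℝ, g = ε1 / (8 * K) := ⟨_, rfl⟩
  have hgp : 0 < g := by rw [hg]; positivity
  obtain ⟨g1, hg1⟩ : ∃ g1 : ℝ, g1 = min g 1 := ⟨_, rfl⟩
  have hg1p : 0 < g1 := by rw [hg1]; exact lt_min hgp one_pos
  have hg1a : g1 ≤ g := by rw [hg1]; exact min_le_left _ _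
  have hg1b : g1 ≤ 1 := by rw [hg1]; exact min_le_right _ _
  obtain ⟨m1, hm1⟩ : ∃ m1 : ℝ, m1 = min ε1 1 := ⟨_, rfl⟩
  have hm1p : 0 < m1 := by rw [hm1]; exact lt_min hε1 one_pos
  have hm1a : m1 ≤ ε1 := by rw [hm1]; exact min_le_left _ _
  have hm1b : m1 ≤ 1 := by rw [hm1]; exact min_le_right _ _
  obtain ⟨ε, hε⟩ : ∃ ε : ℝ, ε = g1 * ε1 / (128 * M) := ⟨_, rfl⟩
  have hεp : 0 < ε := by rw [hε]; positivity
  have hεM : M * ε = g1 * ε1 / 128 := by
    rw [hε]; field_simp
  obtain ⟨κ, hκ⟩ : ∃ κ : ℝ, κ = g * m1 / (128 * M * K) := ⟨_, rfl⟩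
  have hκp : 0 < κ := by rw [hκ]; positivity
  have hκM : κ * M * K = g * m1 / 128 := by
    rw [hκ]; field_simp
  obtain ⟨θ, hθ⟩ : ∃ θ : ℝ, θ = ε1 / (8 * ((M : ℝ) - 1)) := ⟨_, rfl⟩
  have hθp : 0 < θ := by rw [hθ]; positivity
  have hθM : ((M : ℝ) - 1) * θ = ε1 / 8 := by
    rw [hθ]; field_simp
  have hgK : g * K = ε1 / 8 := by rw [hg]; field_simp
  have hεM1 : M * ε ≤ ε1 / 128 := by
    rw [hεM]
    have : g1 * ε1 ≤ 1 * ε1 := mul_le_mul_of_nonneg_right hg1b hε1.le
    linarith
  refine ⟨θ, ε, κ, hθp, hεp, ?_, ?_, hκp, ?_⟩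
  · have : 1 * ε ≤ M * ε := mul_le_mul_of_nonneg_right (by linarith) hεp.le
    linarith
  · linarith
  intro C L hC hL
  refine ⟨⌈128 * M * C / (ε1 * g * L)⌉₊ + 1, by omega, ?_⟩
  intro lam hlam η' hη'
  have hlam1 : 1 ≤ lam := by omega
  have hlamp : (0 : ℝ) < lam := by exact_mod_cast hlam1
  obtain ⟨x, hx⟩ : ∃ x : ℝ, x = lam * L := ⟨_, rfl⟩
  have hxp : 0 < x := by rw [hx]; positivity
  have hxC : M * C ≤ ε1 * g / 128 * x := by
    have h1 : 128 * M * C / (ε1 * g * L) ≤ (lam : ℝ) := by
      calc 128 * M * C / (ε1 * g * L) ≤ (⌈128 * M * C / (ε1 * g * L)⌉₊ : ℝ) := Nat.le_ceil _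
        _ ≤ (lam : ℝ) := by
          have : ⌈128 * M * C / (ε1 * g * L)⌉₊ ≤ lam := by omega
          exact_mod_cast this
    rw [div_le_iff₀ (by positivity)] at h1
    rw [hx]
    linarith
  refine ⟨g * η' / (16 * M * x), by positivity,
    ⌈8 * C / (ε1 * x)⌉₊ + ⌈16 * C / (g * η')⌉₊ + ⌈3 / g⌉₊ + 1, ?_⟩
  intro N hN e Ej Ij Fj bad bad' he hE hEs hI hIs hF hFs hbad hb hb'
  have hN1 : 1 ≤ N := by omega
  have hN1' : (1 : ℝ) ≤ N := by exact_mod_cast hN1
  have hNp : (0 : ℝ) < N := by linarith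
  have hNa : 8 * C ≤ ε1 * (N * x) := by
    have h1 : 8 * C / (ε1 * x) ≤ (N : ℝ) := by
      calc 8 * C / (ε1 * x) ≤ (⌈8 * C / (ε1 * x)⌉₊ : ℝ) := Nat.le_ceil _
        _ ≤ (N : ℝ) := by
          have : ⌈8 * C / (ε1 * x)⌉₊ ≤ N := by omega
          exact_mod_cast this
    rw [div_le_iff₀ (by positivity)] at h1
    linarith
  have hNb : 16 * C ≤ N * g * η' := by
    have h1 : 16 * C / (g * η') ≤ (N : ℝ) := by
      calc 16 * C / (g * η') ≤ (⌈16 * C / (g * η')⌉₊ : ℝ) := Nat.le_ceil _
        _ ≤ (N : ℝ) := by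
          have : ⌈16 * C / (g * η')⌉₊ ≤ N := by omega
          exact_mod_cast this
    rw [div_le_iff₀ (by positivity)] at h1
    linarith
  have hNc : 3 ≤ (N - 1) * g := by
    have h1 : 3 / g ≤ (N : ℝ) - 1 := by
      have h2 : (⌈3 / g⌉₊ : ℝ) + 1 ≤ (N : ℝ) := by
        have : ⌈3 / g⌉₊ + 1 ≤ N := by omega
        exact_mod_cast this
      have := Nat.le_ceil (3 / g)
      linarith
    rwa [div_le_iff₀ hgp] at h1
  have hNl : (N : ℝ) * lam * L = N * x := by rw [hx]; ring
  obtain ⟨n, hn⟩ : ∃ n : ℕ, n = (M - 1) * N := ⟨_, rfl⟩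
  have hnc : (n : ℝ) = ((M : ℝ) - 1) * N := by
    rw [hn, Nat.cast_mul, Nat.cast_sub (by omega), Nat.cast_one]
  rw [← hn] at hE hEs hI hIs hF hFs hbad ⊢
  rw [hNl] at hEs hIs hFs
  have hlL : ∀ z : ℝ, z * lam * L = z * x := fun z => by rw [hx]; ring
  simp only [hlL] at hE hbad ⊢
  by_contra hcon
  push Not at hcon
  -- the four sets
  set P := (range n).filter (fun j => θ * x ≤ Ej j) with hP
  set A := (range n).filter (fun j => η' < Ij j) with hA
  set T := ((range n).filter (fun j => j ∉ bad)).filter (fun j => ε1 / 8 * x < Fj j - ((e - ε) * x - C))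
    with hT
  have hPc : 2 * g * N ≤ (P.card : ℝ) := by
    have h1 := pig_many (range n) Ej (K * x) (θ * x) (fun j hj => (hE j (mem_range.1 hj)).2)
      (by positivity)
    rw [card_range, hnc] at h1
    have h2 : ε1 / 2 * (N * x) - C ≤ (P.card : ℝ) * (K * x) + ((M : ℝ) - 1) * N * (θ * x) :=
      le_trans hEs h1
    have h3 : ((M : ℝ) - 1) * N * (θ * x) = ε1 / 8 * (N * x) := by
      rw [← hθM]; ring
    rw [h3] at h2
    have h4 : 2 * g * N * (K * x) ≤ (P.card : ℝ) * (K * x) := by
      have : 2 * g * N * (K * x) = 2 * (g * K) * (N * x) := by ring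
      rw [this, hgK]
      linarith
    exact le_of_mul_le_mul_right h4 (by positivity)
  have hAc : (A.card : ℝ) ≤ g * N / 8 := by
    have h1 := pig_markov (range n) Ij (fun j hj => hI j (mem_range.1 hj)) η' _ hIs
    have h2 : (M : ℝ) * (N * x) * (g * η' / (16 * M * x)) = g * N / 16 * η' := by
      field_simp
    rw [h2] at h1
    have h3 : (A.card : ℝ) * η' ≤ g * N / 8 * η' := by
      calc (A.card : ℝ) * η' ≤ g * N / 16 * η' + C := h1
        _ ≤ g * N / 8 * η' := by linarith
    exact le_of_mul_le_mul_right h3 hη'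
  have hTc : (T.card : ℝ) ≤ 3 * g * N / 16 := by
    obtain ⟨w, hw⟩ : ∃ w : ℝ, w = (e - ε) * x - C := ⟨_, rfl⟩
    have hwK : w ≤ K * x := by
      rw [hw]
      have : (e - ε) * x ≤ K * x := mul_le_mul_of_nonneg_right (by linarith) hxp.le
      linarith
    set s := (range n).filter (fun j => j ∉ bad) with hs
    have hcard : ((range n).card : ℝ) = ((range n).filter (fun j => j ∈ bad)).card + s.card := by
      rw [← Nat.cast_add, hs, card_filter_add_card_filter_not]
    have hbc : (((range n).filter (fun j => j ∈ bad)).card : ℝ) ≤ κ * (M * N) := by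
      refine le_trans ?_ hb
      have : (range n).filter (fun j => j ∈ bad) ⊆ bad := by
        intro j hj
        exact (mem_filter.1 hj).2
      exact_mod_cast card_le_card this
    have hsum : ∑ j ∈ s, (Fj j - w) ≤ g * N / 16 * (ε1 / 8 * x) * 3 := by
      have h1 : ∑ j ∈ s, Fj j ≤ ∑ j ∈ range n, Fj j := by
        apply sum_le_sum_of_subset_of_nonneg (filter_subset _ _)
        intro j hj _
        exact hF j (mem_range.1 hj)
      rw [sum_sub_distrib, sum_const, nsmul_eq_mul]
      rw [card_range, hnc] at hcard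
      set b : ℝ := (((range n).filter (fun j => j ∈ bad)).card : ℝ) with hbdef
      have hb0 : 0 ≤ b := by positivity
      have h2 : (s.card : ℝ) * w = ((M : ℝ) - 1) * N * w - b * w := by
        rw [hcard]; ring
      have h3 : b * w ≤ κ * (M * N) * (K * x) := by
        calc b * w ≤ b * (K * x) := mul_le_mul_of_nonneg_left hwK hb0
          _ ≤ κ * (M * N) * (K * x) := mul_le_mul_of_nonneg_right hbc (by positivity)
      have h4 : κ * (M * N) * (K * x) = g * m1 / 128 * (N * x) := by
        rw [← hκM]; ring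
      have h5 : g * m1 / 128 * (N * x) ≤ g * ε1 / 128 * (N * x) := by
        apply mul_le_mul_of_nonneg_right _ (by positivity)
        have : g * m1 ≤ g * ε1 := mul_le_mul_of_nonneg_left hm1a hgp.le
        linarith
      have h6 : (((M : ℝ) - 1) * e + ε) * (N * x) + C - ((M : ℝ) - 1) * N * w =
          M * ε * (N * x) + (((M : ℝ) - 1) * N + 1) * C := by
        rw [hw]; ring
      have h7 : M * ε * (N * x) ≤ g * ε1 / 128 * (N * x) := by
        apply mul_le_mul_of_nonneg_right _ (by positivity)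
        rw [hεM]
        have : g1 * ε1 ≤ g * ε1 := mul_le_mul_of_nonneg_right hg1a hε1.le
        linarith
      have h8 : (((M : ℝ) - 1) * N + 1) * C ≤ g * ε1 / 128 * (N * x) := by
        calc (((M : ℝ) - 1) * N + 1) * C ≤ ((M : ℝ) * N) * C :=
              mul_le_mul_of_nonneg_right (by linarith) hC
          _ = N * (M * C) := by ring
          _ ≤ N * (ε1 * g / 128 * x) := mul_le_mul_of_nonneg_left hxC hNp.le
          _ = g * ε1 / 128 * (N * x) := by ring
      have h9 : g * N / 16 * (ε1 / 8 * x) * 3 = 3 * (g * ε1 / 128 * (N * x)) := by ring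
      rw [h9]
      linarith
    have h10 := pig_markov s (fun j => Fj j - w) (fun j hj => by
      have hj' := mem_filter.1 hj
      have := hbad j (mem_range.1 hj'.1) hj'.2
      rw [← hw] at this
      linarith) (ε1 / 8 * x) _ hsum
    rw [hw] at h10
    have h11 : (T.card : ℝ) * (ε1 / 8 * x) ≤ 3 * g * N / 16 * (ε1 / 8 * x) := by
      calc (T.card : ℝ) * (ε1 / 8 * x) ≤ g * N / 16 * (ε1 / 8 * x) * 3 := h10
        _ = 3 * g * N / 16 * (ε1 / 8 * x) := by ring
    exact le_of_mul_le_mul_right h11 (by positivity)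
  have hsub : P ⊆ range 3 ∪ A ∪ bad'.image (fun j => j + 3) ∪ bad.image (fun j => j + 3) ∪
      T.image (fun j => j + 3) := by
    intro j hj
    obtain ⟨hj1, hj2⟩ := mem_filter.1 hj
    rw [mem_range] at hj1
    by_cases h3 : j < 3
    · simp only [mem_union, mem_range]
      left; left; left; left; exact h3
    · have h3' : 3 ≤ j := not_lt.1 h3
      by_cases hI' : η' < Ij j
      · have : j ∈ A := mem_filter.2 ⟨mem_range.2 hj1, hI'⟩
        simp only [mem_union]
        left; left; left; right; exact this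
      · by_cases hb1 : j - 3 ∈ bad'
        · have : j ∈ bad'.image (fun j => j + 3) := mem_image.2 ⟨j - 3, hb1, by omega⟩
          simp only [mem_union]
          left; left; right; exact this
        · by_cases hb2 : j - 3 ∈ bad
          · have : j ∈ bad.image (fun j => j + 3) := mem_image.2 ⟨j - 3, hb2, by omega⟩
            simp only [mem_union]
            left; right; exact this
          · have h4 := hcon j h3' hj1 hj2 (not_lt.1 hI') hb1
            have h5 : j - 3 ∈ T := by
              rw [hT, mem_filter, mem_filter, mem_range]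
              refine ⟨⟨by omega, hb2⟩, ?_⟩
              have h6 : 0 ≤ ε * x := by positivity
              have h7 : (e + ε1 / 8) * x = e * x + ε1 / 8 * x := by ring
              have h8 : (e - ε) * x = e * x - ε * x := by ring
              rw [h7] at h4
              rw [h8]
              linarith
            have : j ∈ T.image (fun j => j + 3) := mem_image.2 ⟨j - 3, h5, by omega⟩
            simp only [mem_union]
            right; exact this
  have hfin : (P.card : ℝ) ≤ 3 + A.card + bad'.card + bad.card + T.card := by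
    have h1 := card_le_card hsub
    have h2 : (range 3 ∪ A ∪ bad'.image (fun j => j + 3) ∪ bad.image (fun j => j + 3) ∪
      T.image (fun j => j + 3)).card ≤ 3 + A.card + bad'.card + bad.card + T.card := by
      refine le_trans (card_union_le _ _) (add_le_add ?_ card_image_le)
      refine le_trans (card_union_le _ _) (add_le_add ?_ card_image_le)
      refine le_trans (card_union_le _ _) (add_le_add ?_ card_image_le)
      refine le_trans (card_union_le _ _) (add_le_add ?_ le_rfl)
      rw [card_range]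
    exact_mod_cast le_trans h1 h2
  have hκN : κ * (M * N) ≤ g * N / 128 := by
    have h1 : κ * M * 1 ≤ κ * M * K := mul_le_mul_of_nonneg_left hK' (by positivity)
    have h2 : g * m1 ≤ g * 1 := mul_le_mul_of_nonneg_left hm1b hgp.le
    have h3 : κ * M ≤ g / 128 := by linarith
    calc κ * (M * N) = κ * M * N := by ring
      _ ≤ g / 128 * N := mul_le_mul_of_nonneg_right h3 hNp.le
      _ = g * N / 128 := by ring
  have hgN : 0 < g * N := by positivity
  have hNc' : 3 ≤ g * N - g := by
    have : ((N : ℝ) - 1) * g = g * N - g := by ring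
    rw [← this]
    exact hNc
  have e1 : 2 * g * (N : ℝ) = 2 * (g * N) := by ring
  have e2 : 3 * g * (N : ℝ) / 16 = 3 / 16 * (g * N) := by ring
  rw [e1] at hPc
  rw [e2] at hTc
  linarith

end Pool.Agent.Helper70.DK
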